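import Mathlib

/-!
Project PP (helper85), by helper68: a positive semidefinite matrix is `ψ ψ^*` for a symmetric matrix `ψ`.
-/

set_option autoImplicit false

open Finset Matrix
open scoped ComplexConjugate ComplexOrder

namespace Pool.Agent.Q68.PP

lemma sqrt_sym {α : Type} [Fintype α] [DecidableEq α] (τ : Matrix α α ℂ) (hτ : τ.PosSemidef) :
    ∃ ψ : α → α → ℂ, (∀ a b, ψ a b = ψ b a) ∧ ∀ a b, ∑ c, ψ a c * conj (ψ b c) = τ a b := by
  set U : Matrix α α ℂ := (hτ.1.eigenvectorUnitary : Matrix α α ℂ) with hU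
  set D : Matrix α α ℂ := diagonal (fun i => ((Real.sqrt (hτ.1.eigenvalues i) : ℝ) : ℂ)) with hD
  have hUU : Uᴴ * U = 1 := by
    have := Unitary.coe_star_mul_self hτ.1.eigenvectorUnitary
    rw [← hU] at this
    exact this
  have hsp : τ = U * diagonal (fun i => ((hτ.1.eigenvalues i : ℝ) : ℂ)) * Uᴴ := by
    have h := hτ.1.spectral_theorem
    rw [Unitary.conjStarAlgAut_apply] at h
    exact h
  have hDD : D * Dᴴ = diagonal (fun i => ((hτ.1.eigenvalues i : ℝ) : ℂ)) := by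
    rw [hD, diagonal_conjTranspose, diagonal_mul_diagonal]
    congr 1
    funext i
    have h0 := hτ.eigenvalues_nonneg i
    rw [Pi.star_apply]
    show ((Real.sqrt (hτ.1.eigenvalues i) : ℝ) : ℂ) * conj ((Real.sqrt (hτ.1.eigenvalues i) : ℝ) : ℂ) = _
    rw [Complex.conj_ofReal, ← Complex.ofReal_mul, Real.mul_self_sqrt h0]
  have h1 : Uᵀ * (Uᵀ)ᴴ = 1 := by
    have h : (Uᴴ * U)ᵀ = Uᵀ * (Uᵀ)ᴴ := by
      rw [transpose_mul]
      rfl
    rw [← h, hUU, transpose_one]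
  have hsym : (U * D * Uᵀ)ᵀ = U * D * Uᵀ := by
    rw [transpose_mul, transpose_mul, transpose_transpose, hD, diagonal_transpose, Matrix.mul_assoc]
  have hprod : (U * D * Uᵀ) * (U * D * Uᵀ)ᴴ = τ := by
    rw [conjTranspose_mul, conjTranspose_mul]
    calc U * D * Uᵀ * (Uᵀᴴ * (Dᴴ * Uᴴ)) = U * D * (Uᵀ * Uᵀᴴ) * (Dᴴ * Uᴴ) := by
          simp only [Matrix.mul_assoc]
      _ = U * (D * Dᴴ) * Uᴴ := by
          rw [h1]
          simp only [Matrix.mul_assoc, Matrix.one_mul]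
      _ = τ := by rw [hDD]; exact hsp.symm
  refine ⟨U * D * Uᵀ, ?_, ?_⟩
  · intro a b
    have := congrFun (congrFun hsym b) a
    rw [transpose_apply] at this
    exact this
  · intro a b
    have := congrFun (congrFun hprod a) b
    rw [Matrix.mul_apply] at this
    exact this

lemma norm_entry {α : Type} [Fintype α] [DecidableEq α] (τ : Matrix α α ℂ) (hτ : τ.PosSemidef)
    (a b : α) : ‖τ a b‖ ≤ ((τ a a).re + (τ b b).re) / 2 := by
  obtain ⟨ψ, _, hψ⟩ := sqrt_sym τ hτ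
  have hd : ∀ a, (τ a a).re = ∑ c, ‖ψ a c‖ ^ 2 := by
    intro a
    rw [← hψ a a]
    rw [Complex.re_sum]
    refine Finset.sum_congr rfl (fun c _ => ?_)
    rw [Complex.mul_conj, Complex.ofReal_re, Complex.normSq_eq_norm_sq]
  rw [← hψ a b, hd a, hd b]
  refine (norm_sum_le _ _).trans ?_
  rw [← Finset.sum_add_distrib, Finset.sum_div]
  refine Finset.sum_le_sum (fun c _ => ?_)
  rw [norm_mul, Complex.norm_conj]
  nlinarith [sq_nonneg (‖ψ a c‖ - ‖ψ b c‖)]

end Pool.Agent.Q68.PP
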