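import Mathlib
import Pool.Agent.Q85.PP.Defs
import Pool.Agent.Q68.PP.Psd

/-!
Project PP (helper85), part PP-6, by helper68: reduced density matrices.
-/

set_option autoImplicit false

open Finset
open scoped ComplexConjugate ComplexOrder
open Pool.Agent.Q85.PP

namespace Pool.Agent.Q68.PP

section ext
variable {S T : Type} {d : ℕ}

lemma extend_ext {ι : T → S} (hι : Function.Injective ι) (x y : T → Fin d) (c : S → Fin d) :
    Function.extend ι y (Function.extend ι x c) = Function.extend ι y c := by
  classical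
  funext v
  by_cases hv : ∃ r, ι r = v
  · obtain ⟨r, rfl⟩ := hv
    rw [hι.extend_apply, hι.extend_apply]
  · rw [Function.extend_apply' _ _ _ hv, Function.extend_apply' _ _ _ hv,
      Function.extend_apply' _ _ _ hv]

lemma extend_self {ι : T → S} (hι : Function.Injective ι) (x : T → Fin d) (c : S → Fin d)
    (h : ∀ r, c (ι r) = x r) : Function.extend ι x c = c := by
  classical
  funext v
  by_cases hv : ∃ r, ι r = v
  · obtain ⟨r, rfl⟩ := hv
    rw [hι.extend_apply, h]
  · rw [Function.extend_apply' _ _ _ hv]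

end ext

section red
variable {S T : Type} [Fintype S] [DecidableEq S] {d : ℕ}

lemma red_def (ι : T → S) (M : (S → Fin d) → (S → Fin d) → ℂ) (x y : T → Fin d)
    [∀ c : S → Fin d, Decidable (∀ r, c (ι r) = x r)] :
    red ι M x y = ∑ c : S → Fin d, if ∀ r, c (ι r) = x r then M c (Function.extend ι y c) else 0 := by
  unfold red
  refine Finset.sum_congr rfl (fun c _ => ?_)
  by_cases h : ∀ r, c (ι r) = x r
  · rw [if_pos h, if_pos h]
  · rw [if_neg h, if_neg h]

open Classical in
lemma red_env {ι : T → S} (hι : Function.Injective ι) (ρ : (S → Fin d) → (S → Fin d) → ℂ)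
    (z x y : T → Fin d) : red ι ρ x y =
      ∑ c ∈ univ.filter (fun c : S → Fin d => ∀ r, c (ι r) = z r),
        ρ (Function.extend ι x c) (Function.extend ι y c) := by
  unfold red
  rw [← Finset.sum_filter]
  refine Finset.sum_nbij' (fun c => Function.extend ι z c) (fun c => Function.extend ι x c)
    ?_ ?_ ?_ ?_ ?_
  · intro c _
    simp only [Finset.mem_filter, Finset.mem_univ, true_and]
    intro r
    rw [hι.extend_apply]
  · intro c _
    simp only [Finset.mem_filter, Finset.mem_univ, true_and]
    intro r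
    rw [hι.extend_apply]
  · intro c hc
    simp only [Finset.mem_filter, Finset.mem_univ, true_and] at hc
    show Function.extend ι x (Function.extend ι z c) = c
    rw [extend_ext hι, extend_self hι _ _ hc]
  · intro c hc
    simp only [Finset.mem_filter, Finset.mem_univ, true_and] at hc
    show Function.extend ι z (Function.extend ι x c) = c
    rw [extend_ext hι, extend_self hι _ _ hc]
  · intro c hc
    simp only [Finset.mem_filter, Finset.mem_univ, true_and] at hc
    rw [extend_ext hι, extend_ext hι, extend_self hι _ _ hc]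

lemma red_trace [Fintype T] [DecidableEq T] {ι : T → S} (hι : Function.Injective ι)
    (ρ : (S → Fin d) → (S → Fin d) → ℂ) : ∑ x, red ι ρ x x = ∑ c, ρ c c := by
  classical
  unfold red
  rw [Finset.sum_comm]
  refine Finset.sum_congr rfl (fun c _ => ?_)
  rw [Finset.sum_eq_single (fun r => c (ι r))]
  · rw [if_pos (fun r => rfl), extend_self hι _ _ (fun r => rfl)]
  · intro x _ hx
    rw [if_neg]
    intro h
    apply hx
    funext r
    exact (h r).symm
  · intro h
    exact absurd (Finset.mem_univ _) h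

lemma red_dens [Fintype T] [DecidableEq T] {ι : T → S} (hι : Function.Injective ι)
    (ρ : (S → Fin d) → (S → Fin d) → ℂ) (hρ : Dens ρ) : Dens (red ι ρ) := by
  classical
  refine ⟨?_, (red_trace hι ρ).trans hρ.tr⟩
  rcases isEmpty_or_nonempty (T → Fin d) with hemp | ⟨⟨z⟩⟩
  · have : (Matrix.of (red ι ρ)) = 0 := by
      ext x y
      exact hemp.elim x
    rw [this]
    exact Matrix.PosSemidef.zero
  · obtain ⟨s, hs⟩ : ∃ s : Finset (S → Fin d), ∀ x y, red ι ρ x y =
        ∑ c ∈ s, ρ (Function.extend ι x c) (Function.extend ι y c) := ⟨_, red_env hι ρ z⟩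
    have hsum : (Matrix.of (red ι ρ)) = ∑ c ∈ s, (Matrix.of ρ).submatrix (fun x => Function.extend ι x c)
            (fun x => Function.extend ι x c) := by
      ext x y
      rw [Matrix.sum_apply]
      exact hs x y
    rw [hsum]
    exact Matrix.posSemidef_sum _ (fun c _ => hρ.psd.submatrix _)

end red

lemma sum_norm_le (T : Type) [Fintype T] [DecidableEq T] (d : ℕ)
    (ρ : (T → Fin d) → (T → Fin d) → ℂ) (hρ : Dens ρ) :
    ∑ x, ∑ y, ‖ρ x y‖ ≤ (d : ℝ) ^ Fintype.card T := by
  have h1 : ∀ x y, ‖ρ x y‖ ≤ ((ρ x x).re + (ρ y y).re) / 2 := fun x y =>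
    norm_entry (Matrix.of ρ) hρ.psd x y
  have htr : ∑ x, (ρ x x).re = 1 := by
    have := congrArg Complex.re hρ.tr
    rw [Complex.re_sum] at this
    simpa using this
  refine (Finset.sum_le_sum (fun x _ => Finset.sum_le_sum (fun y _ => h1 x y))).trans ?_
  have h2 : ∑ x : T → Fin d, ∑ y : T → Fin d, ((ρ x x).re + (ρ y y).re) / 2 =
      (Fintype.card (T → Fin d) : ℝ) := by
    simp only [← Finset.sum_div, Finset.sum_add_distrib, Finset.sum_const, htr,
      Finset.card_univ, nsmul_eq_mul, mul_one]
    rw [← Finset.mul_sum, htr]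
    ring
  rw [h2]
  simp

lemma red_red {S U T : Type} [Fintype S] [DecidableEq S] [Fintype U] [DecidableEq U] {d : ℕ}
    (f : U → S) (hf : Function.Injective f) (ι : T → U) (hι : Function.Injective ι)
    (ρ : (S → Fin d) → (S → Fin d) → ℂ) (x y : T → Fin d) :
    red ι (red f ρ) x y = red (fun r => f (ι r)) ρ x y := by
  classical
  have hcomp : Function.Injective (fun r => f (ι r)) := hf.comp hι
  simp only [red_def]
  have h1 : ∀ c : U → Fin d, (if ∀ r, c (ι r) = x r then
      ∑ C : S → Fin d, if ∀ r, C (f r) = c r then ρ C (Function.extend f (Function.extend ι y c) C)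
        else 0 else 0) =
      ∑ C : S → Fin d, if ∀ r, C (f r) = c r then (if ∀ r, c (ι r) = x r then
        ρ C (Function.extend f (Function.extend ι y c) C) else 0) else 0 := by
    intro c
    split_ifs with h
    · rfl
    · simp
  rw [Finset.sum_congr rfl (fun c _ => h1 c), Finset.sum_comm]
  refine Finset.sum_congr rfl (fun C _ => ?_)
  rw [Finset.sum_eq_single (fun q => C (f q))]
  · rw [if_pos (fun r => rfl)]
    congr 2
    funext v
    by_cases hv : ∃ q, f q = v
    · obtain ⟨q, rfl⟩ := hv
      rw [hf.extend_apply]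
      by_cases hq : ∃ r, ι r = q
      · obtain ⟨r, rfl⟩ := hq
        rw [hι.extend_apply]
        exact (hcomp.extend_apply y C r).symm
      · rw [Function.extend_apply' _ _ _ hq, Function.extend_apply']
        rintro ⟨r, hr⟩
        exact hq ⟨r, hf hr⟩
    · rw [Function.extend_apply' _ _ _ hv, Function.extend_apply']
      rintro ⟨r, hr⟩
      exact hv ⟨ι r, hr⟩
  · intro c _ hc
    rw [if_neg]
    intro h
    apply hc
    funext q
    exact (h q).symm
  · intro h
    exact absurd (Finset.mem_univ _) h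

lemma red_shift {n d : ℕ} (ρ : (Tor n → Fin d) → (Tor n → Fin d) → ℂ) (hρ : TInv ρ) {T : Type}
    (p q : T → Tor n) (hq : Function.Injective q) (t : Tor n) (h : ∀ r, p r = q r + t)
    (x y : T → Fin d) : red q ρ x y = red p ρ x y := by
  classical
  have hp : Function.Injective p := by
    intro a b hab
    rw [h, h] at hab
    exact hq (add_right_cancel hab)
  unfold red
  symm
  refine Fintype.sum_equiv (Equiv.arrowCongr (Equiv.subRight t) (Equiv.refl _)) _ _ ?_
  intro C
  have e : (Equiv.arrowCongr (Equiv.subRight t) (Equiv.refl (Fin d))) C = fun v => C (v + t) := by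
    funext v
    simp [Equiv.arrowCongr]
  rw [e]
  have hcond : (∀ r, C (p r) = x r) ↔ (∀ r, (fun v => C (v + t)) (q r) = x r) := by
    simp only [h]
  have hext : (fun v => Function.extend p y C (v + t)) =
      Function.extend q y (fun v => C (v + t)) := by
    funext v
    by_cases hv : ∃ r, q r = v
    · obtain ⟨r, rfl⟩ := hv
      rw [hq.extend_apply, ← h, hp.extend_apply]
    · rw [Function.extend_apply' _ _ _ hv, Function.extend_apply']
      rintro ⟨r, hr⟩
      rw [h] at hr
      exact hv ⟨r, add_right_cancel hr⟩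
  rw [← hext, hρ t C (Function.extend p y C)]
  by_cases hc : ∀ r, C (p r) = x r
  · rw [if_pos hc, if_pos (hcond.1 hc)]
  · rw [if_neg hc, if_neg (fun hh => hc (hcond.2 hh))]

lemma rect_inj {n m k : ℕ} (hm : m ≤ n + 1) (hk : k ≤ n + 1) :
    Function.Injective (fun q : Fin m × Fin k =>
      ((((q.1 : ℕ) : ZMod (n + 1)), ((q.2 : ℕ) : ZMod (n + 1))) : Tor n)) := by
  rintro ⟨a, b⟩ ⟨a', b'⟩ h
  simp only [Prod.mk.injEq] at h
  have key : ∀ u v : ℕ, u < n + 1 → v < n + 1 → ((u : ℕ) : ZMod (n + 1)) = v → u = v := by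
    intro u v hu hv huv
    have := congrArg ZMod.val huv
    rw [ZMod.val_natCast, ZMod.val_natCast, Nat.mod_eq_of_lt hu, Nat.mod_eq_of_lt hv] at this
    exact this
  have h1 := key _ _ (lt_of_lt_of_le a.2 hm) (lt_of_lt_of_le a'.2 hm) h.1
  have h2 := key _ _ (lt_of_lt_of_le b.2 hk) (lt_of_lt_of_le b'.2 hk) h.2
  exact Prod.ext (Fin.ext h1) (Fin.ext h2)

/-- PP-6. -/
theorem reduced : StmRed := by
  refine ⟨?_, ?_, ?_⟩
  · intro S T _ _ _ _ d ι ρ hι hρ
    exact red_dens hι ρ hρ
  · intro T _ _ d ρ hρ
    exact sum_norm_le T d ρ hρ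
  · intro n m k d ρ hρ hm hk T _ ι p t hι hp x y
    rw [red_red _ (rect_inj hm hk) ι hι]
    refine red_shift ρ hρ p _ ((rect_inj hm hk).comp hι) t ?_ x y
    intro r
    rw [hp r]
    rfl

end Pool.Agent.Q68.PP
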