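import Mathlib
import Pool.Agent.Q85.PP.Defs
import Pool.Agent.Q68.PP.Red

/-!
Project PP (helper85), part PP-5, by helper68: a block state with the classical marks and the given
reduced density matrix on the lower and on the upper part.
-/

set_option autoImplicit false

open Finset
open scoped ComplexConjugate ComplexOrder
open Pool.Agent.Q85.PP

namespace Pool.Agent.Q68.PP

section
variable {e m k : ℕ}

/-- The block configuration with the marks and the given configurations on both parts. -/
def glue (u u' : Fin m × Fin k → Fin (e + 2)) (q : Fin (m + 2) × Fin (2 * k + 1)) : Fin (e + 2) :=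
  if h2 : (q.2 : ℕ) = 0 then (if (q.1 : ℕ) = 0 then 1 else 0)
  else if h1 : (q.1 : ℕ) ≤ 1 then 1
  else if h3 : (q.2 : ℕ) ≤ k then u (⟨q.1 - 2, by omega⟩, ⟨q.2 - 1, by omega⟩)
  else u' (⟨q.1 - 2, by omega⟩, ⟨q.2 - 1 - k, by omega⟩)

lemma lowB_inj : Function.Injective (lowB (m := m) (k := k)) := by
  rintro ⟨a, b⟩ ⟨a', b'⟩ h
  simp only [lowB, Prod.mk.injEq, Fin.mk.injEq] at h
  exact Prod.ext (Fin.ext (show (a : ℕ) = a' by omega)) (Fin.ext (show (b : ℕ) = b' by omega))

lemma upB_inj : Function.Injective (upB (m := m) (k := k)) := by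
  rintro ⟨a, b⟩ ⟨a', b'⟩ h
  simp only [upB, Prod.mk.injEq, Fin.mk.injEq] at h
  exact Prod.ext (Fin.ext (show (a : ℕ) = a' by omega)) (Fin.ext (show (b : ℕ) = b' by omega))

lemma glue_low (u u' : Fin m × Fin k → Fin (e + 2)) (q : Fin m × Fin k) :
    glue u u' (lowB q) = u q := by
  obtain ⟨⟨a, ha⟩, ⟨b, hb⟩⟩ := q
  unfold glue lowB
  simp only
  rw [dif_neg (by omega), dif_neg (by omega), dif_pos (by omega)]
  congr 1

lemma glue_up (u u' : Fin m × Fin k → Fin (e + 2)) (q : Fin m × Fin k) :
    glue u u' (upB q) = u' q := by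
  obtain ⟨⟨a, ha⟩, ⟨b, hb⟩⟩ := q
  unfold glue upB
  simp only
  rw [dif_neg (by omega), dif_neg (by omega), dif_neg (by omega)]
  congr 1
  refine Prod.ext (Fin.ext ?_) (Fin.ext ?_)
  · show a + 2 - 2 = a
    omega
  · show b + 1 + k - 1 - k = b
    omega

lemma glue_pat (u u' : Fin m × Fin k → Fin (e + 2)) : Pat (glue u u') := by
  refine ⟨?_, ?_, ?_⟩
  · simp [glue]
  · intro i hi
    have hi' : (i : ℕ) ≠ 0 := fun h => hi (Fin.ext h)
    simp [glue, hi']
  · intro j hj
    have hj' : (j : ℕ) ≠ 0 := fun h => hj (Fin.ext h)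
    constructor
    · simp [glue, hj']
    · simp [glue, hj']

lemma pat_glue (κ : Blk e m k) (h : Pat κ) :
    glue (fun q => κ (lowB q)) (fun q => κ (upB q)) = κ := by
  funext q
  obtain ⟨⟨a, ha⟩, ⟨b, hb⟩⟩ := q
  unfold glue
  simp only
  split_ifs with h1 h2 h3 h4
  · subst h1
    subst h2
    exact h.1.symm
  · subst h1
    exact (h.2.1 ⟨a, ha⟩ (fun hh => h2 (congrArg Fin.val hh))).symm
  · have h5 := h.2.2 ⟨b, hb⟩ (fun hh => h1 (congrArg Fin.val hh))
    rcases Nat.eq_zero_or_pos a with h6 | h6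
    · subst h6
      exact h5.1.symm
    · have h7 : a = 1 := by omega
      subst h7
      exact h5.2.symm
  · congr 1
    refine Prod.ext (Fin.ext ?_) (Fin.ext ?_)
    · show a - 2 + 2 = a
      omega
    · show b - 1 + 1 = b
      omega
  · congr 1
    refine Prod.ext (Fin.ext ?_) (Fin.ext ?_)
    · show a - 2 + 2 = a
      omega
    · show b - 1 - k + 1 + k = b
      omega

lemma extend_low (u u' v : Fin m × Fin k → Fin (e + 2)) :
    Function.extend lowB v (glue u u') = glue v u' := by
  funext q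
  by_cases hq : ∃ r, lowB r = q
  · obtain ⟨r, rfl⟩ := hq
    rw [lowB_inj.extend_apply, glue_low]
  · rw [Function.extend_apply' _ _ _ hq]
    unfold glue
    split_ifs with h1 h2 h3 h4
    · rfl
    · rfl
    · rfl
    · exfalso
      apply hq
      refine ⟨(⟨q.1 - 2, by omega⟩, ⟨q.2 - 1, by omega⟩), ?_⟩
      refine Prod.ext (Fin.ext ?_) (Fin.ext ?_)
      · show (q.1 : ℕ) - 2 + 2 = q.1
        omega
      · show (q.2 : ℕ) - 1 + 1 = q.2
        omega
    · rfl

lemma extend_up (u u' v : Fin m × Fin k → Fin (e + 2)) :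
    Function.extend upB v (glue u u') = glue u v := by
  funext q
  by_cases hq : ∃ r, upB r = q
  · obtain ⟨r, rfl⟩ := hq
    rw [upB_inj.extend_apply, glue_up]
  · rw [Function.extend_apply' _ _ _ hq]
    unfold glue
    split_ifs with h1 h2 h3 h4
    · rfl
    · rfl
    · rfl
    · rfl
    · exfalso
      apply hq
      refine ⟨(⟨q.1 - 2, by omega⟩, ⟨q.2 - 1 - k, by omega⟩), ?_⟩
      refine Prod.ext (Fin.ext ?_) (Fin.ext ?_)
      · show (q.1 : ℕ) - 2 + 2 = q.1
        omega
      · show (q.2 : ℕ) - 1 - k + 1 + k = q.2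
        omega

open Classical in
/-- The block state of a symmetric purification. -/
noncomputable def chi (ψ : (Fin m × Fin k → Fin (e + 2)) → (Fin m × Fin k → Fin (e + 2)) → ℂ)
    (κ : Blk e m k) : ℂ :=
  if Pat κ then ψ (fun q => κ (lowB q)) (fun q => κ (upB q)) else 0

lemma chi_glue (ψ : (Fin m × Fin k → Fin (e + 2)) → (Fin m × Fin k → Fin (e + 2)) → ℂ)
    (u u' : Fin m × Fin k → Fin (e + 2)) : chi ψ (glue u u') = ψ u u' := by
  unfold chi
  rw [if_pos (glue_pat u u')]
  congr 1
  · funext q
    exact glue_low u u' q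
  · funext q
    exact glue_up u u' q

lemma red_low (ψ : (Fin m × Fin k → Fin (e + 2)) → (Fin m × Fin k → Fin (e + 2)) → ℂ)
    (u v : Fin m × Fin k → Fin (e + 2)) :
    red lowB (outer (chi ψ)) u v = ∑ w, ψ u w * conj (ψ v w) := by
  classical
  rw [red_def]
  symm
  refine Fintype.sum_of_injective (fun w => glue u w) ?_ _ _ ?_ ?_
  · intro w w' h
    funext q
    rw [← glue_up u w q, ← glue_up u w' q]
    exact congrFun h (upB q)
  · intro κ hκ
    split_ifs with h
    · have hp : ¬ Pat κ := by
        intro hp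
        apply hκ
        refine ⟨fun q => κ (upB q), ?_⟩
        show glue u (fun q => κ (upB q)) = κ
        rw [show u = fun q => κ (lowB q) from funext (fun q => (h q).symm)]
        exact pat_glue κ hp
      unfold outer
      rw [show chi ψ κ = 0 from if_neg hp, zero_mul]
    · rfl
  · intro w
    rw [if_pos (fun r => glue_low u w r), extend_low]
    unfold outer
    rw [chi_glue, chi_glue]

lemma red_up (ψ : (Fin m × Fin k → Fin (e + 2)) → (Fin m × Fin k → Fin (e + 2)) → ℂ)
    (u v : Fin m × Fin k → Fin (e + 2)) :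
    red upB (outer (chi ψ)) u v = ∑ w, ψ w u * conj (ψ w v) := by
  classical
  rw [red_def]
  symm
  refine Fintype.sum_of_injective (fun w => glue w u) ?_ _ _ ?_ ?_
  · intro w w' h
    funext q
    rw [← glue_low w u q, ← glue_low w' u q]
    exact congrFun h (lowB q)
  · intro κ hκ
    split_ifs with h
    · have hp : ¬ Pat κ := by
        intro hp
        apply hκ
        refine ⟨fun q => κ (lowB q), ?_⟩
        show glue (fun q => κ (lowB q)) u = κ
        rw [show u = fun q => κ (upB q) from funext (fun q => (h q).symm)]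
        exact pat_glue κ hp
      unfold outer
      rw [show chi ψ κ = 0 from if_neg hp, zero_mul]
    · rfl
  · intro w
    rw [if_pos (fun r => glue_up w u r), extend_up]
    unfold outer
    rw [chi_glue, chi_glue]

end

/-- PP-5. -/
theorem block_state : StmChi := by
  classical
  intro e m k hm hk τ hτ
  obtain ⟨ψ, hsym, hψ⟩ := sqrt_sym (Matrix.of τ) hτ.psd
  have hlow : red lowB (outer (chi ψ)) = τ := by
    funext u v
    rw [red_low]
    exact hψ u v
  have hup : red upB (outer (chi ψ)) = τ := by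
    funext u v
    rw [red_up]
    rw [Finset.sum_congr rfl (fun w _ => by rw [hsym w u, hsym w v])]
    exact hψ u v
  refine ⟨chi ψ, ?_, ?_, ?_⟩
  · have h1 : ∑ κ, outer (chi ψ) κ κ = (1 : ℂ) := by
      rw [← red_trace lowB_inj, hlow]
      exact hτ.tr
    have h2 : ((∑ κ, ‖chi ψ κ‖ ^ 2 : ℝ) : ℂ) = 1 := by
      rw [← h1]
      push_cast
      refine Finset.sum_congr rfl (fun κ _ => ?_)
      unfold outer
      rw [Complex.mul_conj, Complex.normSq_eq_norm_sq]
      push_cast
      rfl
    exact_mod_cast h2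
  · intro κ h
    by_contra hp
    exact h (if_neg hp)
  · intro T _ ι hι x y
    constructor
    · rw [← red_red lowB lowB_inj ι hι, hlow]
    · rw [← red_red upB upB_inj ι hι, hup]

end Pool.Agent.Q68.PP
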