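import Mathlib
import Pool.Agent.Q85.PP.Defs

/-!
Project PP (helper85), part PP-2, by helper68: elementary facts about the tilings of the cycle by blocks
of length `N` and `N + 1`.
-/

set_option autoImplicit false

open Finset
open Pool.Agent.Q85.PP

namespace Pool.Agent.Q68.PP

lemma walk_back {N n : ℕ} {X : ZMod (n + 1) → Fin (N + 1)} (hX : IsW N n X) (a : ZMod (n + 1)) :
    ∀ k : ℕ, k ≤ (X a : ℕ) → (X (a - (k : ZMod (n + 1))) : ℕ) = X a - k := by
  intro k
  induction k with
  | zero => intro _; simp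
  | succ k ih =>
    intro hk
    have h1 := ih (by omega)
    have h2 := hX (a - (k : ZMod (n + 1)))
    have e : a - (k : ZMod (n + 1)) - 1 = a - ((k + 1 : ℕ) : ZMod (n + 1)) := by
      push_cast
      ring
    rw [e] at h2
    rcases h2 with h2 | h2 <;> omega

lemma walk_zero {N n : ℕ} {X : ZMod (n + 1) → Fin (N + 1)} (hX : IsW N n X) (a : ZMod (n + 1)) :
    (X (a - ((X a : ℕ) : ZMod (n + 1))) : ℕ) = 0 := by
  rw [walk_back hX a _ le_rfl]
  omega

lemma walk_fwd {N n : ℕ} {X : ZMod (n + 1) → Fin (N + 1)} (hX : IsW N n X) (c : ZMod (n + 1))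
    (hc : (X c : ℕ) = 0) : ∀ k : ℕ, k < N → (X (c + (k : ZMod (n + 1))) : ℕ) = k := by
  intro k
  induction k with
  | zero => intro _; simpa using hc
  | succ k ih =>
    intro hk
    have h1 := ih (by omega)
    have h2 := hX (c + ((k + 1 : ℕ) : ZMod (n + 1)))
    have e : c + ((k + 1 : ℕ) : ZMod (n + 1)) - 1 = c + (k : ZMod (n + 1)) := by
      push_cast
      ring
    rw [e] at h2
    rcases h2 with h2 | h2 <;> omega

open Classical in
lemma card_starts {N n : ℕ} {X : ZMod (n + 1) → Fin (N + 1)} (hX : IsW N n X) :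
    N * (univ.filter (fun c : ZMod (n + 1) => (X c : ℕ) = 0)).card ≤ n + 1 := by
  have h : ((Finset.range N) ×ˢ (univ.filter (fun c : ZMod (n + 1) => (X c : ℕ) = 0))).card ≤
      (univ : Finset (ZMod (n + 1))).card := by
    refine Finset.card_le_card_of_injOn (fun p => p.2 + (p.1 : ZMod (n + 1)))
      (fun _ _ => Finset.mem_coe.2 (Finset.mem_univ _)) ?_
    rintro ⟨i, c⟩ hp ⟨i', c'⟩ hp' heq
    simp only [Finset.coe_product, Set.mem_prod, Finset.mem_coe, Finset.mem_range,
      Finset.mem_filter, Finset.mem_univ, true_and] at hp hp' heq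
    have h1 := walk_fwd hX c hp.2 i hp.1
    have h2 := walk_fwd hX c' hp'.2 i' hp'.1
    rw [heq] at h1
    have hi : i = i' := by omega
    subst hi
    have hc : c = c' := by simpa using heq
    rw [hc]
  rw [Finset.card_product, Finset.card_range, Finset.card_univ, ZMod.card] at h
  exact h

open Classical in
lemma card_label {N n : ℕ} {X : ZMod (n + 1) → Fin (N + 1)} (hX : IsW N n X) (i : Fin (N + 1)) :
    N * (univ.filter (fun a : ZMod (n + 1) => X a = i)).card ≤ n + 1 := by
  refine le_trans (Nat.mul_le_mul_left N ?_) (card_starts hX)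
  refine Finset.card_le_card_of_injOn (fun a => a - ((i : ℕ) : ZMod (n + 1))) ?_ ?_
  · intro a ha
    simp only [Finset.coe_filter, Finset.mem_univ, true_and, Set.mem_ofPred_eq] at ha ⊢
    have := walk_zero hX a
    rwa [ha] at this
  · intro a _ b _ hab
    simpa using hab

lemma isW_shift {N n : ℕ} {X : ZMod (n + 1) → Fin (N + 1)} (hX : IsW N n X) (t : ZMod (n + 1)) :
    IsW N n (fun x => X (x + t)) := by
  intro x
  have := hX (x + t)
  have e : x + t - 1 = x - 1 + t := by ring
  rw [e] at this
  exact this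

lemma card_filter_eq {N n : ℕ} (a b : ZMod (n + 1)) (i : Fin (N + 1)) :
    ((walks N n).filter (fun X => X a = i)).card = ((walks N n).filter (fun X => X b = i)).card := by
  refine Finset.card_nbij' (fun X x => X (x + (a - b))) (fun X x => X (x + (b - a))) ?_ ?_ ?_ ?_
  · intro X hX
    simp only [walks, Finset.coe_filter, Finset.mem_filter, Finset.mem_univ, true_and,
      Set.mem_ofPred_eq] at hX ⊢
    refine ⟨isW_shift hX.1 _, ?_⟩
    rw [← hX.2]
    congr 1
    ring
  · intro X hX
    simp only [walks, Finset.coe_filter, Finset.mem_filter, Finset.mem_univ, true_and,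
      Set.mem_ofPred_eq] at hX ⊢
    refine ⟨isW_shift hX.1 _, ?_⟩
    rw [← hX.2]
    congr 1
    ring
  · intro X _
    funext x
    show X (x + (b - a) + (a - b)) = X x
    congr 1
    ring
  · intro X _
    funext x
    show X (x + (a - b) + (b - a)) = X x
    congr 1
    ring

lemma card_walk_label {N n : ℕ} (a : ZMod (n + 1)) (i : Fin (N + 1)) :
    N * ((walks N n).filter (fun X => X a = i)).card ≤ (walks N n).card := by
  classical
  have h1 : (n + 1) * ((walks N n).filter (fun X => X a = i)).card =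
      ∑ b : ZMod (n + 1), ((walks N n).filter (fun X => X b = i)).card := by
    rw [Finset.sum_congr rfl (fun b _ => card_filter_eq b a i), Finset.sum_const,
      Finset.card_univ, ZMod.card, smul_eq_mul]
  have h2 : ∑ b : ZMod (n + 1), ((walks N n).filter (fun X => X b = i)).card =
      ∑ X ∈ walks N n, (univ.filter (fun b : ZMod (n + 1) => X b = i)).card := by
    simp only [Finset.card_filter]
    rw [Finset.sum_comm]
  have h3 : N * ∑ X ∈ walks N n, (univ.filter (fun b : ZMod (n + 1) => X b = i)).card ≤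
      (n + 1) * (walks N n).card := by
    rw [Finset.mul_sum]
    refine le_trans (Finset.sum_le_sum (fun X hX => card_label (i := i) ?_)) ?_
    · simp only [walks, Finset.mem_filter, Finset.mem_univ, true_and] at hX
      exact hX
    · rw [Finset.sum_const, smul_eq_mul, mul_comm]
  rw [← h2, ← h1] at h3
  have h4 : (n + 1) * (N * ((walks N n).filter (fun X => X a = i)).card) ≤
      (n + 1) * (walks N n).card := by
    calc _ = N * ((n + 1) * ((walks N n).filter (fun X => X a = i)).card) := by ring
      _ ≤ _ := h3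
  exact Nat.le_of_mul_le_mul_left h4 (Nat.succ_pos n)

lemma mod_step (N v : ℕ) (hN : 0 < N) :
    (v + 1) % N = v % N + 1 ∨ ((v + 1) % N = 0 ∧ v % N + 1 = N) := by
  have h1 : (v + 1) % N = (v % N + 1) % N := by rw [Nat.mod_add_mod]
  have h2 : v % N < N := Nat.mod_lt _ hN
  rcases Nat.lt_or_ge (v % N + 1) N with h | h
  · left
    rw [h1, Nat.mod_eq_of_lt h]
  · right
    have h3 : v % N + 1 = N := by omega
    refine ⟨?_, h3⟩
    rw [h1, h3, Nat.mod_self]

/-- The label of the site `v` in the tiling with `p` short blocks first. -/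
def lab (N p v : ℕ) : ℕ := if v < p * N then v % N else (v - p * N) % (N + 1)

lemma lab_lt (N p v : ℕ) (hN : 0 < N) : lab N p v < N + 1 := by
  unfold lab
  split_ifs
  · exact (Nat.mod_lt _ hN).trans (Nat.lt_succ_self N)
  · exact Nat.mod_lt _ (Nat.succ_pos N)

lemma lab_zero (N p : ℕ) : lab N p 0 = 0 := by
  unfold lab
  split_ifs <;> simp

lemma lab_step (N p v : ℕ) (hN : 0 < N) :
    lab N p (v + 1) = lab N p v + 1 ∨ (lab N p (v + 1) = 0 ∧ N ≤ lab N p v + 1) := by
  unfold lab
  rcases Nat.lt_or_ge (v + 1) (p * N) with h | h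
  · rw [if_pos h, if_pos (by omega)]
    rcases mod_step N v hN with h1 | h1
    · left; exact h1
    · right; exact ⟨h1.1, by omega⟩
  · rw [if_neg (by omega)]
    rcases Nat.lt_or_ge v (p * N) with h2 | h2
    · rw [if_pos h2]
      right
      have e : v + 1 = p * N := by omega
      refine ⟨by rw [e]; simp, ?_⟩
      rcases mod_step N v hN with h1 | h1
      · rw [e, Nat.mul_mod_left] at h1
        omega
      · omega
    · rw [if_neg (by omega)]
      have e : v + 1 - p * N = (v - p * N) + 1 := by omega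
      rw [e]
      rcases mod_step (N + 1) (v - p * N) (Nat.succ_pos N) with h1 | h1
      · left; exact h1
      · right; exact ⟨h1.1, by omega⟩

lemma lab_last (N p q n : ℕ) (hN : 0 < N) (h : n + 1 = p * N + q * (N + 1)) :
    N ≤ lab N p n + 1 := by
  have h1 := lab_step N p n hN
  have h2 : lab N p (n + 1) = 0 := by
    unfold lab
    rw [if_neg (by omega), h]
    simp
  rcases h1 with h1 | h1
  · omega
  · exact h1.2

lemma exists_pq (N n : ℕ) (hN : 0 < N) (h : N * N ≤ n) :
    ∃ p q : ℕ, n + 1 = p * N + q * (N + 1) := by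
  have h1 : (n + 1) / N * N + (n + 1) % N = n + 1 := Nat.div_add_mod' (n + 1) N
  have h2 : (n + 1) % N < N := Nat.mod_lt _ hN
  have h3 : N ≤ (n + 1) / N := by
    rw [Nat.le_div_iff_mul_le hN]
    omega
  refine ⟨(n + 1) / N - (n + 1) % N, (n + 1) % N, ?_⟩
  obtain ⟨r, hr⟩ : ∃ r, (n + 1) / N = r + (n + 1) % N := ⟨(n + 1) / N - (n + 1) % N, by omega⟩
  rw [hr] at h1 ⊢
  rw [Nat.add_sub_cancel]
  nlinarith

lemma walks_nonempty (N n : ℕ) (hN : 0 < N) (h : N * N ≤ n) : (walks N n).Nonempty := by
  obtain ⟨p, q, hpq⟩ := exists_pq N n hN h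
  refine ⟨fun x => ⟨lab N p (ZMod.val x), lab_lt N p _ hN⟩, ?_⟩
  simp only [walks, Finset.mem_filter, Finset.mem_univ, true_and]
  intro x
  unfold Nxt
  show lab N p (ZMod.val x) = lab N p (ZMod.val (x - 1)) + 1 ∨
    (lab N p (ZMod.val x) = 0 ∧ N ≤ lab N p (ZMod.val (x - 1)) + 1)
  have hx := ZMod.natCast_zmod_val x
  rcases Nat.eq_zero_or_pos (ZMod.val x) with h0 | h0
  · have hx0 : x = 0 := by
      rw [← hx, h0]
      simp
    right
    rw [h0, lab_zero]
    refine ⟨rfl, ?_⟩
    have e : ZMod.val (x - 1) = n := by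
      rw [hx0, zero_sub]
      have : (-1 : ZMod (n + 1)) = ((n : ℕ) : ZMod (n + 1)) := by
        have h' : ((n + 1 : ℕ) : ZMod (n + 1)) = 0 := ZMod.natCast_self (n + 1)
        push_cast at h'
        linear_combination -h'
      rw [this, ZMod.val_natCast, Nat.mod_eq_of_lt (Nat.lt_succ_self n)]
    rw [e]
    exact lab_last N p q n hN hpq
  · obtain ⟨v, hv⟩ : ∃ v, ZMod.val x = v + 1 := ⟨ZMod.val x - 1, by omega⟩
    have hlt := ZMod.val_lt x
    have e : ZMod.val (x - 1) = v := by
      have : x - 1 = ((v : ℕ) : ZMod (n + 1)) := by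
        rw [← hx, hv]
        push_cast
        ring
      rw [this, ZMod.val_natCast, Nat.mod_eq_of_lt (by omega)]
    rw [e, hv]
    exact lab_step N p v hN

/-- PP-2. -/
theorem walk_facts : StmWalk := by
  intro N hN
  refine ⟨?_, ?_, N * N, fun n hn => walks_nonempty N n hN hn⟩
  · intro n X hX a
    simp only [walks, Finset.mem_filter, Finset.mem_univ, true_and] at hX
    exact walk_zero hX a
  · intro n a i
    exact card_walk_label a i

end Pool.Agent.Q68.PP
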