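import Mathlib
import Pool.Agent.Q85.PP.Defs
import Pool.Agent.Q68.PP.Walk
import Pool.Agent.Q68.PP.Red

/-!
Project PP (helper85), part PP-4, by helper68: the norm of the vector of a tiling and its reduced density
matrix inside of a block.
-/

set_option autoImplicit false

open Finset
open scoped ComplexConjugate ComplexOrder
open Pool.Agent.Q85.PP

namespace Pool.Agent.Q68.PP

section abs
variable {S K B E F : Type} [Fintype S] [DecidableEq S] [Fintype K] [DecidableEq K] [Fintype B]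
  [DecidableEq B] [Fintype E] [DecidableEq E] [Fintype F] [DecidableEq F]

/-- Configurations on the sites as configurations on the blocks and the extra sites. -/
def splitE (σ : (K × B) ⊕ E ≃ S) : (S → F) ≃ (K → B → F) × (E → F) where
  toFun s := (fun c b => s (σ (Sum.inl (c, b))), fun w => s (σ (Sum.inr w)))
  invFun p v := Sum.elim (fun cb => p.1 cb.1 cb.2) (fun w => p.2 w) (σ.symm v)
  left_inv s := by
    funext v
    obtain ⟨p, rfl⟩ := σ.surjective v
    rcases p with ⟨c, b⟩ | w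
    · simp
    · simp
  right_inv p := by
    refine Prod.ext ?_ ?_
    · funext c b
      simp
    · funext w
      simp

lemma abs_norm (σ : (K × B) ⊕ E ≃ S) (χ : (B → F) → ℂ) (ε : E → F) :
    ∑ s : S → F, ‖(∏ c, χ (fun b => s (σ (Sum.inl (c, b))))) *
      ∏ w, (if s (σ (Sum.inr w)) = ε w then (1 : ℂ) else 0)‖ ^ 2 =
      (∑ κ, ‖χ κ‖ ^ 2) ^ Fintype.card K := by
  have h1 : ∀ s : S → F, ‖(∏ c, χ (fun b => s (σ (Sum.inl (c, b))))) *
      ∏ w, (if s (σ (Sum.inr w)) = ε w then (1 : ℂ) else 0)‖ ^ 2 =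
      (∏ c, ‖χ ((splitE σ s).1 c)‖ ^ 2) *
        ∏ w, (if (splitE σ s).2 w = ε w then (1 : ℝ) else 0) := by
    intro s
    rw [norm_mul, norm_prod, norm_prod, mul_pow, ← Finset.prod_pow, ← Finset.prod_pow]
    congr 1
    refine Finset.prod_congr rfl (fun w _ => ?_)
    show ‖(if s (σ (Sum.inr w)) = ε w then (1 : ℂ) else 0)‖ ^ 2 =
      (if s (σ (Sum.inr w)) = ε w then (1 : ℝ) else 0)
    split_ifs <;> simp
  rw [Finset.sum_congr rfl (fun s _ => h1 s)]
  rw [Fintype.sum_equiv (splitE σ) (fun s : S → F => (∏ c, ‖χ ((splitE σ s).1 c)‖ ^ 2) *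
        ∏ w, (if (splitE σ s).2 w = ε w then (1 : ℝ) else 0))
      (fun p => (∏ c, ‖χ (p.1 c)‖ ^ 2) * ∏ w, (if p.2 w = ε w then (1 : ℝ) else 0))
      (fun s => rfl)]
  rw [Fintype.sum_prod_type]
  simp only [← Finset.mul_sum]
  have h2 : ∑ t : E → F, ∏ w, (if t w = ε w then (1 : ℝ) else 0) = 1 := by
    have := Finset.prod_univ_sum (fun _ : E => (Finset.univ : Finset F))
      (fun (w : E) (x : F) => (if x = ε w then (1 : ℝ) else 0))
    rw [Fintype.piFinset_univ] at this
    rw [← this]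
    simp
  have h3 : ∑ t : K → B → F, ∏ c, ‖χ (t c)‖ ^ 2 = (∑ κ, ‖χ κ‖ ^ 2) ^ Fintype.card K := by
    have := Finset.prod_univ_sum (fun _ : K => (Finset.univ : Finset (B → F)))
      (fun (_ : K) (κ : B → F) => ‖χ κ‖ ^ 2)
    rw [Fintype.piFinset_univ] at this
    rw [← this, Finset.prod_const, Finset.card_univ]
  simp only [h2, mul_one]
  exact h3

end abs

lemma red_factor {S B : Type} [Fintype S] [DecidableEq S] [Fintype B] [DecidableEq B] {d : ℕ}
    (f : B → S) (hf : Function.Injective f) (χ : (B → Fin d) → ℂ) (Φ Ψ : (S → Fin d) → ℂ)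
    (hΦ : ∀ s, Φ s = χ (fun b => s (f b)) * Ψ s)
    (hΨ : ∀ s v, Ψ (Function.extend f v s) = Ψ s) (h1 : ∑ s, ‖Φ s‖ ^ 2 = 1)
    (h2 : ∑ κ, ‖χ κ‖ ^ 2 = 1) (u v : B → Fin d) :
    red f (outer Φ) u v = outer χ u v := by
  classical
  obtain ⟨G, hG⟩ : ∃ G : ℂ, ∀ u v, red f (outer Φ) u v = outer χ u v * G := by
    refine ⟨red f (outer Ψ) u u, ?_⟩
    intro u' v'
    rw [red_env hf (outer Φ) u, red_env hf (outer Ψ) u, Finset.mul_sum]
    refine Finset.sum_congr rfl (fun s _ => ?_)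
    unfold outer
    rw [hΦ, hΦ, hΨ, hΨ, hΨ]
    have e : ∀ w : B → Fin d, (fun b => Function.extend f w s (f b)) = w := by
      intro w
      funext b
      rw [hf.extend_apply]
    rw [e, e, map_mul]
    ring
  have htr : ∀ (A : Type) [Fintype A] (φ : (A → Fin d) → ℂ) (_ : DecidableEq A),
      ∑ s, ‖φ s‖ ^ 2 = 1 → ∑ s, outer φ s s = 1 := by
    intro A _ φ _ h
    have : ((∑ s, ‖φ s‖ ^ 2 : ℝ) : ℂ) = 1 := by rw [h]; simp
    rw [← this]
    push_cast
    refine Finset.sum_congr rfl (fun κ _ => ?_)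
    unfold outer
    rw [Complex.mul_conj, Complex.normSq_eq_norm_sq]
    push_cast
    rfl
  have hG1 : G = 1 := by
    have h3 := red_trace hf (outer Φ)
    rw [Finset.sum_congr rfl (fun x _ => hG x x), ← Finset.sum_mul, htr _ χ inferInstance h2,
      htr _ Φ inferInstance h1, one_mul] at h3
    exact h3
  rw [hG, hG1, mul_one]

section geo
variable {e m k n : ℕ} {X : ZMod (n + 1) → Fin (m + 2 + 1)} {Y : ZMod (n + 1) → Fin (2 * k + 1 + 1)}

/-- The corners. -/
abbrev Cor (X : ZMod (n + 1) → Fin (m + 2 + 1)) (Y : ZMod (n + 1) → Fin (2 * k + 1 + 1)) : Type :=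
  {v : Tor n // (X v.1 : ℕ) = 0 ∧ (Y v.2 : ℕ) = 0}

/-- The extra sites. -/
abbrev Ext (X : ZMod (n + 1) → Fin (m + 2 + 1)) (Y : ZMod (n + 1) → Fin (2 * k + 1 + 1)) : Type :=
  {v : Tor n // (X v.1 : ℕ) = m + 2 ∨ (Y v.2 : ℕ) = 2 * k + 1}

/-- The sites from the blocks and the extra sites. -/
def gmap (X : ZMod (n + 1) → Fin (m + 2 + 1)) (Y : ZMod (n + 1) → Fin (2 * k + 1 + 1)) :
    (Cor X Y × (Fin (m + 2) × Fin (2 * k + 1))) ⊕ Ext X Y → Tor n :=
  Sum.elim (fun p => (p.1.1.1 + ((p.2.1 : ℕ) : ZMod (n + 1)), p.1.1.2 + ((p.2.2 : ℕ) : ZMod (n + 1))))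
    (fun w => w.1)

lemma gmap_lab (hX : IsW (m + 2) n X) (hY : IsW (2 * k + 1) n Y) (c : Cor X Y)
    (q : Fin (m + 2) × Fin (2 * k + 1)) :
    (X (gmap X Y (Sum.inl (c, q))).1 : ℕ) = q.1 ∧ (Y (gmap X Y (Sum.inl (c, q))).2 : ℕ) = q.2 :=
  ⟨walk_fwd hX c.1.1 c.2.1 _ q.1.2, walk_fwd hY c.1.2 c.2.2 _ q.2.2⟩

lemma gmap_bij (hX : IsW (m + 2) n X) (hY : IsW (2 * k + 1) n Y) :
    Function.Bijective (gmap X Y) := by
  constructor
  · rintro (⟨c, q⟩ | w) (⟨c', q'⟩ | w') h
    · have h1 := gmap_lab hX hY c q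
      have h2 := gmap_lab hX hY c' q'
      rw [h] at h1
      have hq : q = q' := Prod.ext (Fin.ext (h1.1.symm.trans h2.1)) (Fin.ext (h1.2.symm.trans h2.2))
      subst hq
      have hc : c = c' := by
        apply Subtype.ext
        have e1 := congrArg Prod.fst h
        have e2 := congrArg Prod.snd h
        simp only [gmap, Sum.elim_inl] at e1 e2
        exact Prod.ext (add_right_cancel e1) (add_right_cancel e2)
      subst hc
      rfl
    · exfalso
      have h1 := gmap_lab hX hY c q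
      rw [h] at h1
      have h3 := w'.2
      have h4 := q.1.2
      have h5 := q.2.2
      rcases h3 with h3 | h3
      · have : (X w'.1.1 : ℕ) = q.1 := h1.1
        omega
      · have : (Y w'.1.2 : ℕ) = q.2 := h1.2
        omega
    · exfalso
      have h1 := gmap_lab hX hY c' q'
      rw [← h] at h1
      have h3 := w.2
      have h4 := q'.1.2
      have h5 := q'.2.2
      rcases h3 with h3 | h3
      · have : (X w.1.1 : ℕ) = q'.1 := h1.1
        omega
      · have : (Y w.1.2 : ℕ) = q'.2 := h1.2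
        omega
    · have : w = w' := Subtype.ext h
      rw [this]
  · intro v
    by_cases hv : (X v.1 : ℕ) = m + 2 ∨ (Y v.2 : ℕ) = 2 * k + 1
    · exact ⟨Sum.inr ⟨v, hv⟩, rfl⟩
    · push Not at hv
      have h1 := (X v.1).2
      have h2 := (Y v.2).2
      refine ⟨Sum.inl (⟨(v.1 - ((X v.1 : ℕ) : ZMod (n + 1)), v.2 - ((Y v.2 : ℕ) : ZMod (n + 1))),
        walk_zero hX _, walk_zero hY _⟩, (⟨X v.1, by omega⟩, ⟨Y v.2, by omega⟩)), ?_⟩
      simp only [gmap, Sum.elim_inl]
      exact Prod.ext (sub_add_cancel _ _) (sub_add_cancel _ _)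

/-- The equivalence of the sites. -/
noncomputable def sig (hX : IsW (m + 2) n X) (hY : IsW (2 * k + 1) n Y) :
    (Cor X Y × (Fin (m + 2) × Fin (2 * k + 1))) ⊕ Ext X Y ≃ Tor n :=
  Equiv.ofBijective (gmap X Y) (gmap_bij hX hY)

lemma phi_eq (hX : IsW (m + 2) n X) (hY : IsW (2 * k + 1) n Y) (χ : Blk e m k → ℂ)
    (s : Tor n → Fin (e + 2)) : Phi (wt χ) X Y s =
      (∏ c : Cor X Y, χ (fun q => s (sig hX hY (Sum.inl (c, q))))) *
        ∏ w : Ext X Y, (if s (sig hX hY (Sum.inr w)) =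
          Pool.Agent.Q85.PP.ext (e := e) (X w.1.1) (Y w.1.2) then (1 : ℂ) else 0) := by
  classical
  unfold Phi
  rw [← Equiv.prod_comp (sig hX hY), Fintype.prod_sum_type, Fintype.prod_prod_type]
  congr 1
  · refine Finset.prod_congr rfl (fun c _ => ?_)
    rw [Finset.prod_eq_single ((0 : Fin (m + 2)), (0 : Fin (2 * k + 1)))]
    · have h := gmap_lab hX hY c ((0 : Fin (m + 2)), (0 : Fin (2 * k + 1)))
      show wt χ (X (gmap X Y (Sum.inl (c, ((0 : Fin (m + 2)), (0 : Fin (2 * k + 1)))))).1)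
        (Y (gmap X Y (Sum.inl (c, ((0 : Fin (m + 2)), (0 : Fin (2 * k + 1)))))).2)
        (win s (gmap X Y (Sum.inl (c, ((0 : Fin (m + 2)), (0 : Fin (2 * k + 1))))))) =
        χ (fun q => s (gmap X Y (Sum.inl (c, q))))
      unfold wt
      rw [if_pos ⟨h.1, h.2⟩]
      congr 1
      funext q
      simp [win, gmap]
    · intro q _ hq
      have h := gmap_lab hX hY c q
      have h1 := q.1.2
      have h2 := q.2.2
      show wt χ (X (gmap X Y (Sum.inl (c, q))).1) (Y (gmap X Y (Sum.inl (c, q))).2)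
        (win s (gmap X Y (Sum.inl (c, q)))) = 1
      unfold wt
      rw [if_neg, if_neg]
      · rw [h.1, h.2]
        omega
      · rw [h.1, h.2]
        rintro ⟨h3, h4⟩
        exact hq (Prod.ext (Fin.ext h3) (Fin.ext h4))
    · intro hh
      exact absurd (Finset.mem_univ _) hh
  · refine Finset.prod_congr rfl (fun w _ => ?_)
    show wt χ (X w.1.1) (Y w.1.2) (win s w.1) = (if s w.1 =
          Pool.Agent.Q85.PP.ext (e := e) (X w.1.1) (Y w.1.2) then (1 : ℂ) else 0)
    have hw := w.2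
    unfold wt
    rw [if_neg (by omega), if_pos hw]
    have : win s w.1 ((0 : Fin (m + 2)), (0 : Fin (2 * k + 1))) = s w.1 := by
      simp [win]
    rw [this]

end geo

/-- PP-4. -/
theorem marg : StmMarg := by
  classical
  intro e m k χ hχ n X hX Y hY
  simp only [walks, Finset.mem_filter, Finset.mem_univ, true_and] at hX hY
  have hnorm : ∑ s : Tor n → Fin (e + 2), ‖Phi (wt χ) X Y s‖ ^ 2 = 1 := by
    rw [Finset.sum_congr rfl (fun s _ => by rw [phi_eq hX hY χ s])]
    rw [abs_norm (sig hX hY) χ (fun w => Pool.Agent.Q85.PP.ext (e := e) (X w.1.1) (Y w.1.2)), hχ,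
      one_pow]
  refine ⟨hnorm, ?_⟩
  intro T _ ι θ x₀ y₀ hι hx hy hr x y
  let c₀ : Cor X Y := ⟨(x₀, y₀), hx, hy⟩
  let f : Fin (m + 2) × Fin (2 * k + 1) → Tor n := fun q => sig hX hY (Sum.inl (c₀, q))
  have hf : Function.Injective f := by
    intro q q' h
    have := (sig hX hY).injective h
    simpa using this
  have hιf : ι = fun r => f (θ r) := by
    funext r
    rw [hr r]
    rfl
  have hθ : Function.Injective θ := by
    intro a b hab
    apply hι
    rw [hιf]
    show f (θ a) = f (θ b)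
    rw [hab]
  rw [hιf, ← red_red f hf θ hθ]
  have hfac : red f (outer (Phi (wt χ) X Y)) = outer χ := by
    funext u v
    refine red_factor f hf χ (Phi (wt χ) X Y) (fun s =>
      (∏ c ∈ (univ : Finset (Cor X Y)).erase c₀, χ (fun q => s (sig hX hY (Sum.inl (c, q))))) *
        ∏ w : Ext X Y, (if s (sig hX hY (Sum.inr w)) =
          Pool.Agent.Q85.PP.ext (e := e) (X w.1.1) (Y w.1.2) then (1 : ℂ) else 0)) ?_ ?_ hnorm hχ u v
    · intro s
      rw [phi_eq hX hY χ s, ← Finset.mul_prod_erase univ _ (Finset.mem_univ c₀), mul_assoc]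
    · intro s v
      have h1 : ∀ p, (∀ q, p ≠ Sum.inl (c₀, q)) →
          Function.extend f v s (sig hX hY p) = s (sig hX hY p) := by
        intro p hp
        rw [Function.extend_apply']
        rintro ⟨q, hq⟩
        exact hp q ((sig hX hY).injective hq.symm)
      congr 1
      · refine Finset.prod_congr rfl (fun c hc => ?_)
        congr 1
        funext q
        apply h1
        intro q' h
        simp only [Sum.inl.injEq, Prod.mk.injEq] at h
        exact (Finset.mem_erase.1 hc).1 h.1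
      · refine Finset.prod_congr rfl (fun w _ => ?_)
        rw [h1 (Sum.inr w) (fun q h => by simp at h)]
  rw [hfac]

end Pool.Agent.Q68.PP
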