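import Mathlib
import Pool.Agent.Q85.PP.Defs
import Pool.Agent.Q68.PP.Walk

/-!
Project PP (helper85), part PP-3, by helper68: different tilings are orthogonal, even if a small
region is removed.
-/

set_option autoImplicit false

open Finset
open Pool.Agent.Q85.PP

namespace Pool.Agent.Q68.PP

lemma walk_ext {N n : ℕ} {X X' : ZMod (n + 1) → Fin (N + 1)} (hX : IsW N n X) (hX' : IsW N n X')
    (h : ∀ x, (X x : ℕ) = 0 ↔ (X' x : ℕ) = 0) : X = X' := by
  funext a
  apply Fin.ext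
  rcases Nat.le_total (X a : ℕ) (X' a) with hle | hle
  · have h1 := walk_zero hX a
    have h2 := walk_back hX' a _ hle
    rw [(h _).1 h1] at h2
    omega
  · have h1 := walk_zero hX' a
    have h2 := walk_back hX a _ hle
    rw [(h _).2 h1] at h2
    omega

open Classical in
lemma card_zeros {N n : ℕ} {X : ZMod (n + 1) → Fin (N + 1)} (hX : IsW N n X) :
    n + 1 ≤ (N + 1) * (univ.filter (fun c : ZMod (n + 1) => (X c : ℕ) = 0)).card := by
  have h : (univ : Finset (ZMod (n + 1))).card ≤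
      ((Finset.range (N + 1)) ×ˢ (univ.filter (fun c : ZMod (n + 1) => (X c : ℕ) = 0))).card := by
    refine Finset.card_le_card_of_injOn
      (fun a => ((X a : ℕ), a - ((X a : ℕ) : ZMod (n + 1)))) ?_ ?_
    · intro a _
      simp only [Finset.coe_product, Set.mem_prod, Finset.mem_coe, Finset.mem_range,
        Finset.mem_filter, Finset.mem_univ, true_and]
      exact ⟨(X a).2, walk_zero hX a⟩
    · intro a _ b _ hab
      simp only [Prod.mk.injEq] at hab
      have h2 := hab.2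
      rw [hab.1] at h2
      simpa using h2
  rw [Finset.card_product, Finset.card_range, Finset.card_univ, ZMod.card] at h
  exact h

lemma exists_zero {N n : ℕ} {X : ZMod (n + 1) → Fin (N + 1)} (hX : IsW N n X)
    (B : Finset (ZMod (n + 1))) (h : (N + 1) * B.card < n + 1) : ∃ x, x ∉ B ∧ (X x : ℕ) = 0 := by
  classical
  by_contra hcon
  push Not at hcon
  have h1 : (univ.filter (fun c : ZMod (n + 1) => (X c : ℕ) = 0)) ⊆ B := by
    intro c hc
    simp only [Finset.mem_filter, Finset.mem_univ, true_and] at hc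
    by_contra hB
    exact hcon c hB hc
  have h2 := Finset.card_le_card h1
  have h3 := card_zeros hX
  have h4 := Nat.mul_le_mul_left (N + 1) h2
  omega

section
variable {e m k n : ℕ} {χ : Blk e m k → ℂ} {X : ZMod (n + 1) → Fin (m + 2 + 1)}
  {Y : ZMod (n + 1) → Fin (2 * k + 1 + 1)} {s : Tor n → Fin (e + 2)}

lemma phi_fac (h : Phi (wt χ) X Y s ≠ 0) (v : Tor n) : wt χ (X v.1) (Y v.2) (win s v) ≠ 0 :=
  Finset.prod_ne_zero_iff.1 h v (Finset.mem_univ v)

lemma phi_pat (hχ : ∀ κ, χ κ ≠ 0 → Pat κ) (h : Phi (wt χ) X Y s ≠ 0) (x y : ZMod (n + 1))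
    (hx : (X x : ℕ) = 0) (hy : (Y y : ℕ) = 0) :
    Pat (e := e) (m := m) (k := k) (win s (x, y)) := by
  have h1 := phi_fac h (x, y)
  unfold wt at h1
  rw [if_pos ⟨hx, hy⟩] at h1
  exact hχ _ h1

lemma win_apply (s : Tor n → Fin (e + 2)) (x y : ZMod (n + 1)) (i : Fin (m + 2))
    (j : Fin (2 * k + 1)) : win s (x, y) (i, j) =
      s (x + ((i : ℕ) : ZMod (n + 1)), y + ((j : ℕ) : ZMod (n + 1))) := rfl

lemma phi_ext (h : Phi (wt χ) X Y s ≠ 0) (x y : ZMod (n + 1))
    (hxy : (X x : ℕ) = m + 2 ∨ (Y y : ℕ) = 2 * k + 1) (h0 : ¬ ((X x : ℕ) = 0 ∧ (Y y : ℕ) = 0)) :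
    s (x, y) = Pool.Agent.Q85.PP.ext (X x) (Y y) := by
  have h1 := phi_fac h (x, y)
  unfold wt at h1
  rw [if_neg h0, if_pos hxy] at h1
  have h2 : win s (x, y) ((0 : Fin (m + 2)), (0 : Fin (2 * k + 1))) = Pool.Agent.Q85.PP.ext (X x) (Y y) := by
    by_contra hne
    apply h1
    rw [if_neg hne]
  rw [win_apply] at h2
  simpa using h2

lemma marker (hχ : ∀ κ, χ κ ≠ 0 → Pat κ) (h : Phi (wt χ) X Y s ≠ 0) (hX : IsW (m + 2) n X)
    (y : ZMod (n + 1)) (hy : (Y y : ℕ) = 0) (x : ZMod (n + 1)) :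
    s (x, y) = 1 ↔ (X x : ℕ) = 0 := by
  constructor
  · intro hs
    by_contra hx
    rcases Nat.lt_or_ge (X x : ℕ) (m + 2) with hlt | hge
    · have h1 := phi_pat hχ h _ y (walk_zero hX x) hy
      have h2 := h1.2.1 ⟨(X x : ℕ), hlt⟩ (by
        intro h0
        apply hx
        have h00 := congrArg Fin.val h0
        exact h00)
      rw [win_apply] at h2
      simp only [sub_add_cancel, Fin.val_zero, Nat.cast_zero, add_zero] at h2
      rw [hs] at h2
      exact absurd h2 (by simp [Fin.ext_iff])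
    · have hX2 : (X x : ℕ) = m + 2 := by
        have := (X x).2
        omega
      have h1 := phi_ext h x y (Or.inl hX2) (fun h0 => hx h0.1)
      rw [hs] at h1
      unfold Pool.Agent.Q85.PP.ext at h1
      rw [if_neg (by omega)] at h1
      exact absurd h1 (by simp [Fin.ext_iff])
  · intro hx
    have h1 := (phi_pat hχ h x y hx hy).1
    rw [win_apply] at h1
    simpa using h1

lemma other (hk : 0 < k) (hχ : ∀ κ, χ κ ≠ 0 → Pat κ) (h : Phi (wt χ) X Y s ≠ 0)
    (hX : IsW (m + 2) n X) (hY : IsW (2 * k + 1) n Y)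
    (y : ZMod (n + 1)) (hy : (Y y : ℕ) ≠ 0) (x : ZMod (n + 1)) (hx : (X x : ℕ) = 0) :
    s (x, y) = 1 ∧ s (x + 1, y) = 1 := by
  rcases Nat.lt_or_ge (Y y : ℕ) (2 * k + 1) with hlt | hge
  · have h1 := phi_pat hχ h x _ hx (walk_zero hY y)
    have h2 := h1.2.2 ⟨(Y y : ℕ), hlt⟩ (by
      intro h0
      apply hy
      have h00 := congrArg Fin.val h0
      exact h00)
    rw [win_apply, win_apply] at h2
    simpa using h2
  · have hY2 : (Y y : ℕ) = 2 * k + 1 := by
      have := (Y y).2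
      omega
    have hx1 : (X (x + 1) : ℕ) = 1 := by
      have := walk_fwd hX x hx 1 (by omega)
      simpa using this
    have h1 := phi_ext h x y (Or.inr hY2) (fun h0 => hy h0.2)
    have h2 := phi_ext h (x + 1) y (Or.inr hY2) (fun h0 => hy h0.2)
    unfold Pool.Agent.Q85.PP.ext at h1 h2
    rw [if_pos ⟨hY2, by omega⟩] at h1
    rw [if_pos ⟨hY2, by omega⟩] at h2
    exact ⟨h1, h2⟩

lemma no_zero (hk : 0 < k) (hχ : ∀ κ, χ κ ≠ 0 → Pat κ)
    {X' : ZMod (n + 1) → Fin (m + 2 + 1)} {Y' : ZMod (n + 1) → Fin (2 * k + 1 + 1)}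
    {s' : Tor n → Fin (e + 2)} (h : Phi (wt χ) X Y s ≠ 0) (h' : Phi (wt χ) X' Y' s' ≠ 0)
    (hX : IsW (m + 2) n X) (hX' : IsW (m + 2) n X') (hY' : IsW (2 * k + 1) n Y')
    (C₁ C₂ : Finset (ZMod (n + 1))) (r : ℕ) (hC₁ : C₁.card ≤ r)
    (hn : (m + 2 + 1) * (2 * r) < n + 1)
    (hs : ∀ v : Tor n, ¬ (v.1 ∈ C₁ ∧ v.2 ∈ C₂) → s v = s' v) (y : ZMod (n + 1))
    (hy : (Y y : ℕ) = 0) : (Y' y : ℕ) = 0 := by
  classical
  by_contra hy'
  obtain ⟨x, hxB, hx⟩ := exists_zero hX' (C₁ ∪ C₁.image (fun c => c - 1)) (by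
    refine lt_of_le_of_lt (Nat.mul_le_mul_left _ ?_) hn
    refine (Finset.card_union_le _ _).trans ?_
    have := Finset.card_image_le (s := C₁) (f := fun c : ZMod (n + 1) => c - 1)
    omega)
  have h1 : x ∉ C₁ := fun hc => hxB (Finset.mem_union_left _ hc)
  have h2 : x + 1 ∉ C₁ := fun hc => hxB (Finset.mem_union_right _
    (Finset.mem_image.2 ⟨x + 1, hc, by simp⟩))
  obtain ⟨h3, h4⟩ := other hk hχ h' hX' hY' y hy' x hx
  rw [← hs (x, y) (fun hc => h1 hc.1)] at h3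
  rw [← hs (x + 1, y) (fun hc => h2 hc.1)] at h4
  have h5 := (marker hχ h hX y hy x).1 h3
  have h6 := (marker hχ h hX y hy (x + 1)).1 h4
  have h7 := walk_fwd hX x h5 1 (by omega)
  rw [Nat.cast_one] at h7
  omega

end

/-- PP-3. -/
theorem orth : StmOrth := by
  classical
  intro e m k hm hk χ hχ r
  refine ⟨(m + 2 + 1) * (2 * r) + (2 * k + 1 + 1) * r, ?_⟩
  intro n hn C₁ C₂ hC₁ hC₂ X hX X' hX' Y hY Y' hY' s s' h h' hs
  simp only [walks, Finset.mem_filter, Finset.mem_univ, true_and] at hX hX' hY hY'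
  have hn1 : (m + 2 + 1) * (2 * r) < n + 1 := by
    have := Nat.le_add_right ((m + 2 + 1) * (2 * r)) ((2 * k + 1 + 1) * r)
    omega
  have hn2 : (2 * k + 1 + 1) * r < n + 1 := by
    have := Nat.le_add_left ((2 * k + 1 + 1) * r) ((m + 2 + 1) * (2 * r))
    omega
  have hYY : Y = Y' := by
    apply walk_ext hY hY'
    intro y
    constructor
    · exact no_zero hk hχ h h' hX hX' hY' C₁ C₂ r hC₁ hn1 hs y
    · exact no_zero hk hχ h' h hX' hX hY C₁ C₂ r hC₁ hn1 (fun v hv => (hs v hv).symm) y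
  refine ⟨?_, hYY⟩
  obtain ⟨y, hyB, hy⟩ := exists_zero hY C₂ (lt_of_le_of_lt (Nat.mul_le_mul_left _ hC₂) hn2)
  have hy' : (Y' y : ℕ) = 0 := by rw [← hYY]; exact hy
  apply walk_ext hX hX'
  intro x
  rw [← marker hχ h hX y hy x, ← marker hχ h' hX' y hy' x, hs (x, y) (fun hc => hyB hc.2)]

end Pool.Agent.Q68.PP
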