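import Mathlib
import Pool.Agent.Q85.PP.Defs

/-!
Project PP (helper85), part PP-1, by helper68: sums over the tilings of local weights are translation
invariant PEPS.
-/

set_option autoImplicit false

open Finset
open Pool.Agent.Q85.PP

namespace Pool.Agent.Q68.PP

/-- The local states. -/
abbrev St (d N M : ℕ) : Type := Fin (N + 1) × Fin (M + 1) × (Fin N × Fin M → Fin d)

/-- Horizontal compatibility. -/
def HC {d N M : ℕ} (l r : St d N M) : Prop :=
  Nxt N l.1 r.1 ∧ l.2.1 = r.2.1 ∧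
    ∀ (i i' : Fin N) (j : Fin M), (i' : ℕ) = i + 1 → l.2.2 (i', j) = r.2.2 (i, j)

/-- Vertical compatibility. -/
def VC {d N M : ℕ} (l r : St d N M) : Prop :=
  l.1 = r.1 ∧ Nxt M l.2.1 r.2.1 ∧
    ∀ (i : Fin N) (j j' : Fin M), (j' : ℕ) = j + 1 → l.2.2 (i, j') = r.2.2 (i, j)

open Classical in
/-- The tensor, with values in the local states. -/
noncomputable def Ast {d N M : ℕ} (hN : 0 < N) (hM : 0 < M)
    (w : Fin (N + 1) → Fin (M + 1) → (Fin N × Fin M → Fin d) → ℂ)
    (s : Fin d) (l r dn up : St d N M) : ℂ :=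
  if r = up ∧ r.2.2 (⟨0, hN⟩, ⟨0, hM⟩) = s ∧ HC l r ∧ VC dn r then w r.1 r.2.1 r.2.2 else 0

lemma const_of_step {α : Type} {n : ℕ} (f : ZMod (n + 1) → α) (h : ∀ y, f (y - 1) = f y)
    (y : ZMod (n + 1)) : f y = f 0 := by
  have key : ∀ k : ℕ, f ((k : ℕ) : ZMod (n + 1)) = f 0 := by
    intro k
    induction k with
    | zero => simp
    | succ k ih =>
      have := h (((k + 1 : ℕ)) : ZMod (n + 1))
      rw [← this]
      rw [← ih]
      congr 1
      push_cast
      ring
  have := key (ZMod.val y)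
  rwa [ZMod.natCast_zmod_val] at this

/-- The good configurations of local states. -/
def Good {d N M n : ℕ} (hN : 0 < N) (hM : 0 < M) (s : Tor n → Fin d) (a : Tor n → St d N M) : Prop :=
  ∀ v : Tor n, (a v).2.2 (⟨0, hN⟩, ⟨0, hM⟩) = s v ∧ HC (a (v.1 - 1, v.2)) (a v) ∧
    VC (a (v.1, v.2 - 1)) (a v)

/-- The configuration of a tiling. -/
def mk {d N M n : ℕ} (s : Tor n → Fin d) (X : ZMod (n + 1) → Fin (N + 1))
    (Y : ZMod (n + 1) → Fin (M + 1)) (v : Tor n) : St d N M :=
  (X v.1, Y v.2, win s v)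

lemma mk_good {d N M n : ℕ} (hN : 0 < N) (hM : 0 < M) (s : Tor n → Fin d)
    (X : ZMod (n + 1) → Fin (N + 1)) (Y : ZMod (n + 1) → Fin (M + 1)) (hX : IsW N n X)
    (hY : IsW M n Y) : Good hN hM s (mk s X Y) := by
  intro v
  refine ⟨?_, ⟨hX v.1, rfl, ?_⟩, ⟨rfl, hY v.2, ?_⟩⟩
  · simp [mk, win]
  · intro i i' j h
    simp only [mk, win]
    congr 2
    rw [h]
    push_cast
    ring
  · intro i j j' h
    simp only [mk, win]
    congr 2
    rw [h]
    push_cast
    ring

lemma good_fst {d N M n : ℕ} {hN : 0 < N} {hM : 0 < M} {s : Tor n → Fin d}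
    {a : Tor n → St d N M} (h : Good hN hM s a) (x y : ZMod (n + 1)) :
    (a (x, y)).1 = (a (x, 0)).1 :=
  const_of_step (fun y => (a (x, y)).1) (fun y => (h (x, y)).2.2.1) y

lemma good_snd {d N M n : ℕ} {hN : 0 < N} {hM : 0 < M} {s : Tor n → Fin d}
    {a : Tor n → St d N M} (h : Good hN hM s a) (x y : ZMod (n + 1)) :
    (a (x, y)).2.1 = (a (0, y)).2.1 :=
  const_of_step (fun x => (a (x, y)).2.1) (fun x => (h (x, y)).2.1.2.1) x

lemma good_win {d N M n : ℕ} {hN : 0 < N} {hM : 0 < M} {s : Tor n → Fin d}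
    {a : Tor n → St d N M} (h : Good hN hM s a) (v : Tor n) :
    (a v).2.2 = win s v := by
  have hj : ∀ (j : ℕ) (hj : j < M) (v : Tor n), (a v).2.2 (⟨0, hN⟩, ⟨j, hj⟩) =
      s (v.1, v.2 + ((j : ℕ) : ZMod (n + 1))) := by
    intro j
    induction j with
    | zero =>
      intro hj v
      rw [(h v).1]
      simp
    | succ j ih =>
      intro hj v
      have h1 := (h (v.1, v.2 + 1)).2.2.2.2 ⟨0, hN⟩ ⟨j, by omega⟩ ⟨j + 1, hj⟩ rfl
      have e1 : ((v.1, v.2 + 1) : Tor n).2 - 1 = v.2 := by simp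
      rw [e1] at h1
      rw [show (((v.1, v.2 + 1) : Tor n).1, v.2) = v from rfl] at h1
      rw [h1, ih]
      congr 2
      push_cast
      ring
  have hi : ∀ (i : ℕ) (hi : i < N) (j : ℕ) (hj : j < M) (v : Tor n),
      (a v).2.2 (⟨i, hi⟩, ⟨j, hj⟩) =
      s (v.1 + ((i : ℕ) : ZMod (n + 1)), v.2 + ((j : ℕ) : ZMod (n + 1))) := by
    intro i
    induction i with
    | zero =>
      intro hi j hj' v
      rw [hj]
      simp
    | succ i ih =>
      intro hi j hj' v
      have h1 := (h (v.1 + 1, v.2)).2.1.2.2 ⟨i, by omega⟩ ⟨i + 1, hi⟩ ⟨j, hj'⟩ rfl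
      have e1 : ((v.1 + 1, v.2) : Tor n).1 - 1 = v.1 := by simp
      rw [e1] at h1
      rw [show ((v.1, ((v.1 + 1, v.2) : Tor n).2) : Tor n) = v from rfl] at h1
      rw [h1, ih]
      congr 2
      push_cast
      ring
  funext q
  exact hi q.1 q.1.2 q.2 q.2.2 v

lemma good_eq {d N M n : ℕ} {hN : 0 < N} {hM : 0 < M} {s : Tor n → Fin d}
    {a : Tor n → St d N M} (h : Good hN hM s a) :
    IsW N n (fun x => (a (x, 0)).1) ∧ IsW M n (fun y => (a (0, y)).2.1) ∧
      mk s (fun x => (a (x, 0)).1) (fun y => (a (0, y)).2.1) = a := by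
  refine ⟨fun x => (h (x, 0)).2.1.1, fun y => (h (0, y)).2.2.2.1, ?_⟩
  funext v
  obtain ⟨x, y⟩ := v
  unfold mk
  refine Prod.ext (good_fst h x y).symm (Prod.ext (good_snd h x y).symm ?_)
  exact (good_win h (x, y)).symm

open Classical in
lemma sum_good {d N M n : ℕ} (hN : 0 < N) (hM : 0 < M) (s : Tor n → Fin d)
    (w : Fin (N + 1) → Fin (M + 1) → (Fin N × Fin M → Fin d) → ℂ) :
    ∑ a : Tor n → St d N M, (if Good hN hM s a then ∏ v, w (a v).1 (a v).2.1 (a v).2.2 else 0) =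
      ∑ X ∈ walks N n, ∑ Y ∈ walks M n, Phi w X Y s := by
  rw [← Finset.sum_product', ← Finset.sum_filter]
  symm
  refine Finset.sum_nbij' (fun p => mk s p.1 p.2)
    (fun a => (fun x => (a (x, 0)).1, fun y => (a (0, y)).2.1)) ?_ ?_ ?_ ?_ ?_
  · intro p hp
    simp only [Finset.mem_product, walks, Finset.mem_filter, Finset.mem_univ, true_and] at hp ⊢
    exact mk_good hN hM s _ _ hp.1 hp.2
  · intro a ha
    simp only [Finset.mem_product, walks, Finset.mem_filter, Finset.mem_univ, true_and] at ha ⊢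
    exact ⟨(good_eq ha).1, (good_eq ha).2.1⟩
  · intro p _
    rfl
  · intro a ha
    simp only [Finset.mem_filter, Finset.mem_univ, true_and] at ha
    exact (good_eq ha).2.2
  · intro p _
    rfl

/-- PP-1. -/
theorem peps_sum : StmPeps := by
  classical
  intro d N M hN hM w
  let e : St d N M ≃ Fin (Fintype.card (St d N M)) := Fintype.equivFin _
  refine ⟨Fintype.card (St d N M), fun s l r dn up =>
    Ast hN hM w s (e.symm l) (e.symm r) (e.symm dn) (e.symm up), ?_⟩
  intro n s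
  rw [← sum_good hN hM s w]
  unfold peps
  have hre : ∀ F : (Tor n → Fin (Fintype.card (St d N M))) → ℂ,
      ∑ a, F a = ∑ a : Tor n → St d N M, F (fun v => e (a v)) := by
    intro F
    exact (Fintype.sum_equiv (Equiv.arrowCongr (Equiv.refl (Tor n)) e) _ _ (fun a => rfl)).symm
  rw [hre]
  refine Finset.sum_congr rfl (fun a _ => ?_)
  rw [hre]
  simp only [Equiv.symm_apply_apply, Ast]
  simp only [Finset.prod_ite_zero, Finset.mem_univ, true_implies]
  rw [Finset.sum_eq_single a]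
  · congr 1
    apply propext
    constructor
    · intro h v
      exact (h v).2
    · intro h v
      exact ⟨rfl, h v⟩
  · intro b _ hb
    rw [if_neg]
    intro h
    apply hb
    funext v
    exact (h v).1.symm
  · intro h
    exact absurd (Finset.mem_univ a) h

end Pool.Agent.Q68.PP
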